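import Mathlib
import Pool.Agent.Y229.PA.CmpH

/-!
# Poles of Igusa's Poincaré series, EVERY prime, with orders: stably sparse polynomials and
compositions with generic coefficients

Let `F` be the polynomial `f(x) + ∑ y_i z_i` after an isomorphism of polynomial rings over `ℤ`. For
every prime `p`, Denef's question with orders (`t₀ = - log |T₀| / log p` is a root of the
Bernstein-Sato polynomial of multiplicity at least the order of the pole `T₀`) for `F` implies the same
for `f`. Usually `f` is degenerate in all coordinates while `F` is sparse: if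
`f = Φ(x, p_1(x), …, p_κ(x))` then `F` can be taken to be `Φ(x, z) + ∑ y_i (z_i - p_i(x))`.

The consequences: Denef's question with orders for every prime if the exponents of `F` are affinely
independent (no condition on the coefficients), and, under the usual conditions on the levels of the
Newton polyhedron of `F`, for all compositions `Φ(x, p_1(x), …, p_κ(x))` in which `Φ` and the `p_i` have
generic coefficients, or only generic coefficients at the vertices.

Method. `P_{f + y z}(p T) = P_f(T) (1 - T / p) / (1 - T)` (starting library `W206.CU`) moves a pole `T₀` of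
order `μ` of `P_f` to the pole `T₀ p ^ κ` of order `μ` (`μ + 1` or `μ - 1` in the exceptional cases
`T₀ p ^ κ = p`, `T₀ = p`) of `P_F`; and `b_{f + y z}(s) = (s + 1) b_f(s + 1) / (s + 2)` (the library
`Y229.RE`). The coefficients of the `y_i z_i` are equal to `1`, not generic: they are made generic by the
action of a torus, which has to fix the part of `F` with fixed coefficients.
-/

set_option autoImplicit false

namespace Pool.Agent.Results.MP_5d9b3c_ag.GenericCompositionsEveryPrime

open Pool.Agent.W206.CU Pool.Agent.TH216.MF Pool.Agent.Y229.PA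
open Pool.Agent.W425.MM (NonB)
open Pool.Agent.W425.ND (spa)
open Pool.Agent.W425.SV (NP)
open Pool.Agent.W426.SM (gord IsRay)
open Pool.Agent.H628R4.TP (IsBFunction)

/-- `f` is not constant. -/
def NonConst {n : ℕ} (f : MvPolynomial (Fin n) ℤ) : Prop :=
  (MvPolynomial.map (Int.castRingHom ℂ) f).totalDegree ≠ 0

/-- Denef's question with orders for `f` and the prime `p`: for every pole `T₀` of the Poincaré series
the order is at most the multiplicity of `t₀ = - log |T₀| / log p` as a root of any `b ≠ 0` with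
`b(s) f ^ s = P(s) f ^ (s + 1)`, for instance of the Bernstein-Sato polynomial. -/
def DenefAt (p : ℕ) {n : ℕ} (f : MvPolynomial (Fin n) ℤ) : Prop :=
  ∀ (T₀ : ℂ) (μ : ℕ), 0 < μ → IsPoleOfOrder (poincare p f) T₀ μ →
    ∀ b : Polynomial ℂ, b ≠ 0 → IsBFunction (MvPolynomial.map (Int.castRingHom ℂ) f) b →
      μ ≤ b.rootMultiplicity ((-Real.log ‖T₀‖ / Real.log p : ℝ) : ℂ)

/-- `F` is `f(x) + ∑_{i < κ} y_i z_i` (`stabS f κ`) after an isomorphism of polynomial rings
over `ℤ`. -/
def IsStable {n M : ℕ} (f : MvPolynomial (Fin n) ℤ) (κ : ℕ) (F : MvPolynomial (Fin M) ℤ) : Prop :=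
  ∃ ψ : MvPolynomial (Fin n ⊕ (Fin κ ⊕ Fin κ)) ℤ ≃ₐ[ℤ] MvPolynomial (Fin M) ℤ, ψ (stabS f κ) = F

/-- The condition on the facets at the level `σ`: they are simplices or B1 in a common direction at
every vertex (`LocS`), or the weaker condition `HypS`. -/
def FaceOK {R N : ℕ} (v : Fin R → Fin N → ℕ) (h : MvPolynomial (Fin N) ℤ) (σ : ℚ) : Prop :=
  LocS v h σ ∨ HypS (Fin.append v (ke v h)) (σ : ℝ)

/-- The level `σ` is harmless: if it is the level `|a| / N_a` of a facet `a` then it is `1`, or it is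
the level of some `a` whose face contains a simplex which is not B1, or `FaceOK v h σ`. -/
def LevelOK {R N : ℕ} (v : Fin R → Fin N → ℕ) (h : MvPolynomial (Fin N) ℤ) (σ : ℚ) : Prop :=
  (∃ a : Fin N → ℕ, IsRay v a ∧ 0 < gord v a ∧ ((∑ i, a i : ℕ) : ℚ) / gord v a = σ) →
    σ = 1 ∨ (∃ a : Fin N → ℕ, 0 < gord v a ∧ NonB v False a ∧
      ((∑ i, a i : ℕ) : ℚ) / gord v a = σ) ∨ FaceOK v h σ

/-- The conclusion for `f` in terms of the levels of the Newton polyhedron of `F` (exponents `v` and
those of `h`): for every prime `p` and every pole `T₀` of order `μ` of the Poincaré series of `f` the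
number `t₀ = - σ` is rational, it is a root of `b` if the level `σ + κ` is harmless, and `μ` is at most
its multiplicity if `FaceOK` holds at the level `σ + κ`. -/
def DenefLevels {R N : ℕ} (v : Fin R → Fin N → ℕ) (h : MvPolynomial (Fin N) ℤ) (κ : ℕ)
    {n : ℕ} (f : MvPolynomial (Fin n) ℤ) : Prop :=
  ∀ p : ℕ, p.Prime → ∀ (T₀ : ℂ) (μ : ℕ), 0 < μ → IsPoleOfOrder (poincare p f) T₀ μ →
    ∀ b : Polynomial ℂ, b ≠ 0 → IsBFunction (MvPolynomial.map (Int.castRingHom ℂ) f) b →
    ∃ σ : ℚ, -Real.log ‖T₀‖ / Real.log p = -(σ : ℝ) ∧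
      (LevelOK v h (σ + κ) → b.eval ((-Real.log ‖T₀‖ / Real.log p : ℝ) : ℂ) = 0) ∧
      (FaceOK v h (σ + κ) →
        μ ≤ b.rootMultiplicity ((-Real.log ‖T₀‖ / Real.log p : ℝ) : ℂ))

theorem levels_of {R N : ℕ} (hR : 0 < R) (v : Fin R → Fin N → ℕ) (h : MvPolynomial (Fin N) ℤ)
    (hh : ∀ w ∈ h.support, NP v w) {κ n : ℕ} {f : MvPolynomial (Fin n) ℤ}
    (hL : Levels v h κ f) : DenefLevels v h κ f := by
  have hloc : ∀ σ : ℚ, FaceOK v h σ → HypS (Fin.append v (ke v h)) (σ : ℝ) := by
    rintro σ (h1 | h1)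
    · exact hypS_of_locS hR v h hh σ h1
    · exact h1
  intro p hp T₀ μ hμ hP b hb0 hb
  obtain ⟨σ, h1, h2, h3⟩ := hL p hp T₀ μ hμ hP b hb0 hb
  refine ⟨σ, h1, fun h4 => h2 fun h5 => ?_, fun h4 => h3 (hloc _ h4)⟩
  rcases h4 h5 with h6 | h6 | h6
  · exact Or.inl h6
  · exact Or.inr (Or.inl h6)
  · exact Or.inr (Or.inr (hloc _ h6))

/-- the case `κ = 0` -/
theorem denef_zero {n M : ℕ} (p : ℕ) [Fact p.Prime] {f : MvPolynomial (Fin n) ℤ}
    {F : MvPolynomial (Fin M) ℤ} (h : IsStable f 0 F) (hF : DenefAt p F) : DenefAt p f := by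
  obtain ⟨ψ, hψ⟩ := h
  intro T₀ μ hμ hP b hb0 hb
  set e := (MvPolynomial.renameEquiv ℤ (Equiv.sumEmpty (Fin n) (Fin 0 ⊕ Fin 0)).symm).trans ψ
    with he
  have h2 : e f = F := by
    rw [← hψ, he]
    show ψ (MvPolynomial.renameEquiv ℤ (Equiv.sumEmpty (Fin n) (Fin 0 ⊕ Fin 0)).symm f) =
      ψ (stabS f 0)
    congr 1
    unfold stabS
    rw [MvPolynomial.renameEquiv_apply, Finset.univ_eq_empty, Finset.sum_empty, add_zero]
    rfl
  have h3 := isBFunction_iso (isoC e) hb
  have h4 := isoC_toC e f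
  unfold toC at h4
  rw [h4, h2] at h3
  rw [← poincare_iso p e f, h2] at hP
  exact hF T₀ μ hμ hP b hb0 h3

/-- **Denef's question on the poles of Igusa's Poincaré series, for EVERY prime, with orders:
stabilisation, stably sparse polynomials, compositions with generic coefficients.**

`poincare p f = ∑_m a_m (p ^ (-n) T) ^ m`, `a_m` the number of zeros of `f` modulo `p ^ m`.
`IsPoleOfOrder P T₀ μ`, `μ > 0`: `P` is the expansion of a rational function with a pole of order `μ`
at `T₀`. `IsBFunction f b`: `b(s) f ^ s = P(s) f ^ (s + 1)` for a differential operator `P(s)` in the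
Weyl algebra, polynomial in `s`; the Bernstein-Sato polynomial `b_f` is one of these `b`.

* Part 1 (transfer, for each single prime `p`). If `F` is `f + ∑ y_i z_i` up to an isomorphism of
  polynomial rings over `ℤ` then Denef's question with orders for `F` and `p` implies the one for `f`
  and `p`.
* Part 2 (stably sparse polynomials). Denef's question with orders holds for every prime and every
  non-constant `f` for which such an `F` is a sum `∑ a_j X ^ (v j)` of at least two monomials with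
  affinely independent exponents; no condition on the coefficients `a_j ≠ 0`.
* Part 3 (stably generic polynomials). `v` is a family of different nonzero exponents and `h` a
  polynomial with other exponents in the Newton polyhedron `conv {v j} + ℝ_{≥ 0} ^ N` (`NP v`). There
  is `g ≠ 0` such that `DenefLevels` holds for all non-constant `f` (in any number of variables) for
  which such an `F`, `κ ≥ 1`, is `spa v c + h = ∑ c_j X ^ (v j) + h` with `g(c_j t ^ (v j)) ≠ 0` for some
  `t ∈ (ℚ^*) ^ N` fixing `h`.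
* Part 4 (compositions). `f = Φ(x, p_1(x), …, p_κ(x))` (`compH m w ι h₀ h a b`), with
  `Φ = ∑_j a_j (x, z) ^ (m j) + h₀(x, z)` (`outerC m a + h₀`) and
  `p_i = ∑_{ι l = i} b_l x ^ (w l) + h_i(x)` (`innerC w ι b i + h i`), where the `m j ≠ 0` are different and the
  pairs `(ι l, w l)` are different; `expG m w ι` are the exponents of
  `∑_j a_j (x, z) ^ (m j) + ∑ y_i (z_i - ∑_{ι l = i} b_l x ^ (w l))` in the variables `x, y, z`, and `fixH h₀ h` is
  the polynomial `h₀(x, z) - ∑ y_i h_i(x)`, whose exponents have to be in the Newton polyhedron of the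
  exponents `expG m w ι` and different from them (for instance `h₀ = 0`, and the monomials of `h_i` are
  in the Newton polyhedron of the `w l`, `ι l = i`); for every `i`, `h_i = 0` or `z_i` does not occur in
  `h₀`. There is `g ≠ 0` such that `DenefLevels` holds for `f` if it is non-constant and
  `g(a, b) ≠ 0`. -/
theorem result :
    (∀ p : ℕ, p.Prime → ∀ (n M κ : ℕ) (f : MvPolynomial (Fin n) ℤ) (F : MvPolynomial (Fin M) ℤ),
      NonConst f → IsStable f κ F → DenefAt p F → DenefAt p f) ∧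
    (∀ (n M κ r : ℕ) (f : MvPolynomial (Fin n) ℤ) (v : Fin r → Fin M → ℕ) (a : Fin r → ℤ),
      2 ≤ r → AffineIndependent ℚ (fun (j : Fin r) (i : Fin M) => (v j i : ℚ)) →
      (∀ j, a j ≠ 0) → NonConst f → IsStable f κ (spa v a) →
      ∀ p : ℕ, p.Prime → DenefAt p f) ∧
    (∀ (R N : ℕ) (v : Fin R → Fin N → ℕ) (h : MvPolynomial (Fin N) ℤ), 0 < R →
      Function.Injective v → (∀ j, v j ≠ 0) →
      (∀ u ∈ h.support, NP v u ∧ ∀ j, ¬ ∀ i, u i = v j i) →
      ∃ g : MvPolynomial (Fin R) ℚ, g ≠ 0 ∧ ∀ (c : Fin R → ℤ) (t : Fin N → ℚ),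
        (∀ i, t i ≠ 0) → (∀ u ∈ h.support, ∏ i, t i ^ u i = 1) →
        MvPolynomial.eval (fun j => (c j : ℚ) * ∏ i, t i ^ v j i) g ≠ 0 →
        ∀ (n κ : ℕ) (f : MvPolynomial (Fin n) ℤ), 0 < κ → NonConst f →
          IsStable f κ (spa v c + h) → DenefLevels v h κ f) ∧
    (∀ (n κ r s : ℕ) (m : Fin r → Fin n ⊕ Fin κ → ℕ) (w : Fin s → Fin n → ℕ) (ι : Fin s → Fin κ)
      (h₀ : MvPolynomial (Fin n ⊕ Fin κ) ℤ) (h : Fin κ → MvPolynomial (Fin n) ℤ),
      0 < r → 0 < κ → Function.Injective m → (∀ j, m j ≠ 0) →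
      (Function.Injective fun l => (ι l, w l)) →
      (∀ i, h i = 0 ∨ ∀ u ∈ h₀.support, u (Sum.inr i) = 0) →
      (∀ u ∈ (fixH h₀ h).support, NP (expG m w ι) u ∧ ∀ J, ¬ ∀ I, u I = expG m w ι J I) →
      ∃ g : MvPolynomial (Fin r ⊕ Fin s) ℚ, g ≠ 0 ∧ ∀ (a : Fin r → ℤ) (b : Fin s → ℤ),
        MvPolynomial.eval (fun J => ((Sum.elim a b J : ℤ) : ℚ)) g ≠ 0 →
        NonConst (compH m w ι h₀ h a b) →
        DenefLevels (expG m w ι) (fixH h₀ h) κ (compH m w ι h₀ h a b)) := by
  refine ⟨fun p hp n M κ f F hf hs hF => ?_, fun n M κ r f v a hr hv ha hf hs p hp => ?_,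
    fun R N v h hR hv hv0 hh => ?_, fun n κ r s m w ι h₀ h hr hκ hm hm0 hw hS hh => ?_⟩
  · have hfact : Fact p.Prime := ⟨hp⟩
    rcases Nat.eq_zero_or_pos κ with rfl | hκ
    · exact denef_zero p hs hF
    · obtain ⟨ψ, hψ⟩ := hs
      intro T₀ μ hμ hP b hb0 hb
      obtain ⟨B, μ₁, hB0, hB, hQ, h1, -⟩ := down hf hκ ψ hψ p hμ hP hb0 hb
      exact h1 fun h2 => hF _ μ₁ h2 hQ B hB0 hB
  · obtain ⟨ψ, hψ⟩ := hs
    intro T₀ μ hμ hP b hb0 hb
    exact sparse_down hr hf v hv a ha ψ hψ hp hμ hP hb0 hb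
  · obtain ⟨g, hg, hgc⟩ := gen_ordT hR v hv hv0 h (fun u hu => (hh u hu).1)
      (fun u hu => (hh u hu).2)
    refine ⟨g, hg, fun c t ht hht hc n κ f hκ hf hs => ?_⟩
    obtain ⟨ψ, hψ⟩ := hs
    exact levels_of hR v h (fun u hu => (hh u hu).1) (levels_down hR v hv0 h
      (fun u hu => (hh u hu).1) (hgc c t ht hht hc) hκ hf ψ hψ)
  · obtain ⟨g, hg, hgc⟩ := cmpH hr hκ m hm hm0 w ι hw h₀ h hS hh
    exact ⟨g, hg, fun a b hab hf => levels_of (by omega) _ _ (fun u hu => (hh u hu).1)
      (hgc a b hab hf)⟩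

end Pool.Agent.Results.MP_5d9b3c_ag.GenericCompositionsEveryPrime
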