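import Mathlib
import Pool.Agent.Y228.PG.PW6

/-!
# Poles of Igusa's Poincaré series: generic polynomials in four variables

Let `f = ∑_j c_j x ^ (v j) + h` be a polynomial in four variables over `ℤ`, where the `v j ≠ 0` are the
vertices of an ARBITRARY Newton polyhedron `conv {v j} + ℝ_{≥ 0} ^ 4`, `h` is an ARBITRARY polynomial
over `ℤ` whose exponents are in this polyhedron, and the coefficients `c_j ∈ ℤ` are generic:
`g(c) ≠ 0` for a certain nonzero polynomial `g` with rational coefficients. The singularities need not
be isolated. Assume that `f` is homogeneous, or that the condition `GlobOK` on the exponents of `h` is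
satisfied (it is empty if `f` is convenient, and if `h = 0`). Then for almost all primes `p` and every
pole `T₀` of Igusa's Poincaré series of `f` the number `t₀ = - log |T₀| / log p` is a root of the
Bernstein-Sato polynomial of `f`, even of every local `b`-function at the origin; only if `f` is not
homogeneous and vanishes on a coordinate subspace of codimension two, `t₀ = -2` is allowed.

Method. The functional equation gives, for algebraically independent `c_j`, an identity in a
polynomial ring with one variable for every `v j`, which is turned into a multiplicative identity for
the series `∑_u p ^ (-|u|) F (⟨u, m_1⟩ - t, …, ⟨u, m_k⟩ - t)`. The identity is an identity modulo an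
ideal; multiplication by monomials shifts the cone, and passing to one side of a wall gives the sums
over the faces of the orthant. The candidate pole of a facet of the Newton polyhedron is a root if the
facet contains a simplex which is not `B1`, a suitable circuit, or if `-(1, …, 1)` is a combination of
independent vertices of a lower face without negative integers as coefficients. In four variables every
other facet whose candidate pole is not `-1` or `-2` is a simplex, is `B1`, or it is compact and `B2`:
the values of two of the coordinates at the vertices are `(0, 0)`, `(1, 0)` or `(0, 1)`; and these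
facets have common directions if they meet in a face which is not simplicial. For the candidate pole
`-2` either the facets are of this kind, or up to a permutation of the variables
`f = x_1 x_2 + x_3 x_4 + …` (with further quadratic terms) and the origin is a nondegenerate critical
point. The numbers of zeros in the tori over the residue field of the polynomials of the faces satisfy
linear relations: for the `B1`-faces in the directions in `J` for the integral over the points with
`p ∣ x_i` exactly for `i ∈ J`, and for the `B2`-faces if `J = {1, …, 4}`. So the zeta function is a
combination of the universal series, and it has no pole with real part `-σ` if `-σ` is not a root. The poles of the zeta function over `ℤ_p ^ 4` are compared with those of the Poincaré series.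
-/

set_option autoImplicit false

namespace Pool.Agent.Results.MP_5d9b3c_ag.GenericFourGlobal

open Pool.Agent.W206.CU Pool.Agent.TH216.HD Pool.Agent.TH216.HDL
open Pool.Agent.Y231.N4 (GlobOK NoP2)
open Pool.Agent.Y228.PG (Hom)

/-- **Denef's question on the poles of Igusa's Poincaré series for the polynomials
`f = ∑_j c_j x ^ (v j) + h` over `ℤ` in four variables with generic coefficients `c_j`, for almost all
primes; all Newton polyhedra.**

`spa v c` is the polynomial `∑_j c_j x ^ (v j)`. `InPoly v w` says that `w` is in the Newton
polyhedron `conv {v j} + ℝ_{≥ 0} ^ 4`. `Vertices v` says that the `v j` are the vertices of this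
polyhedron: no `v j` is in the Newton polyhedron of the other `v k`. `Hom v h`: the monomials
`x ^ (v j)` and `h` are homogeneous of the same degree. `NoP2 v` says that `f` does not vanish on a
coordinate subspace of codimension two. `GlobOK v h` says the following for every coordinate subspace
`{x_i = 0, i ∈ J}`, except the origin, on which `f` vanishes: if a `v j` has a coordinate `1` in `J`,
then no exponent of `h` which is not one of the `v k` has the same coordinates in `J` as `v j`. For
convenient `f` both are true, and `GlobOK` is true for `h = 0`.

`poincare p f = ∑_m a_m (p ^ (-4) T) ^ m`, `a_m` the number of zeros of `f` modulo `p ^ m`.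
`IsPoleOfOrder P T₀ m`, `m > 0`, says that the rational function `P` has a pole of order `m` at `T₀`.
`IsLocalBFunction f b` says that `b(s) f ^ s = P(s) f ^ (s + 1)` for a differential operator `P(s)`,
polynomial in `s`, whose coefficients are formal power series; the Bernstein-Sato polynomial `b_f` is
one of these polynomials `b`. -/
theorem result {r : ℕ} (hr : 0 < r) (v : Fin r → Fin 4 → ℕ)
    (hV : Vertices v) (hv : Function.Injective v) (hv0 : ∀ j, v j ≠ 0)
    (h : MvPolynomial (Fin 4) ℤ) (hh : ∀ w ∈ h.support, InPoly v w)
    (hG : Hom v h ∨ GlobOK v (MvPolynomial.map (Int.castRingHom ℚ) h)) :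
    ∃ g : MvPolynomial (Fin r) ℚ, g ≠ 0 ∧
      ∀ c : Fin r → ℤ, MvPolynomial.eval (fun j => (c j : ℚ)) g ≠ 0 →
      ∃ S : Finset ℕ, ∀ p : ℕ, p.Prime → p ∉ S →
        ∀ (T₀ : ℂ) (m : ℕ), 0 < m →
        IsPoleOfOrder (poincare p (Pool.Agent.W425.ND.spa v c + h)) T₀ m →
        (¬ Hom v h ∧ ¬ NoP2 v ∧ -Real.log ‖T₀‖ / Real.log p = -2) ∨
        ∀ b : Polynomial ℂ, Pool.Agent.H628R4.TP.IsLocalBFunction
            (MvPolynomial.map (Int.castRingHom ℂ) (Pool.Agent.W425.ND.spa v c + h)) b →
          b.eval ((-Real.log ‖T₀‖ / Real.log p : ℝ) : ℂ) = 0 :=
  Pool.Agent.Y228.PG.genP6 hr v hV hv hv0 h hh hG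

end Pool.Agent.Results.MP_5d9b3c_ag.GenericFourGlobal
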