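import Mathlib
import Pool.Agent.TH216.EP.GenF

/-!
# Poles of Igusa's Poincaré series, generic integral coefficients, any number of variables, EVERY
prime, with orders: simplices and B1-facets

Let `f = ∑_j c_j x ^ (v j) + h`, where `h ∈ ℤ[x_1, …, x_n]` is an ARBITRARY polynomial whose exponents
lie in the Newton polyhedron of the `v j ≠ 0`, and only the integral coefficients `c_j` (for instance
at the vertices of the Newton polyhedron of `f`) are generic: `g(c) ≠ 0` for a certain nonzero
polynomial `g` with rational coefficients. The number `n` of variables is arbitrary and NO prime is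
excluded: `f` may be degenerate modulo `p`, and `p` may divide the coefficients.

Then for every prime `p` and every pole `T₀` of Igusa's Poincaré series of `f` the number
`t₀ = - log |T₀| / log p` is rational, and it is a root of the Bernstein-Sato polynomial of `f` if it is
not of the form `- |a| / N_a` for a facet `a`, or if one of the facets with `|a| / N_a = - t₀` contains a
simplex which is not B1, or if these facets are simplices or B1 in a common direction at every
vertex. In the last case the order of the pole is at most the multiplicity of the root.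

Method. The exponents outside of the convex hull of the `v j` are kept as further monomials. On
`{x | ord x_i = u_i}` the condition `p ^ t ∣ f(x)` is a condition on units which depends only on the
numbers `⟨u, m_j⟩ + ord(c_j) - t`; a compactness argument (Dickson's lemma) and Hensel's lemma give the
behaviour of its measure when these numbers are very negative, for every `p`, and scaling one
coordinate by units gives relations between these measures if a monomial contains a coordinate with
exponent `1`. The functional equation of the generic member, turned into a multiplicative identity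
for the series `∑_u p ^ (-|u|) F (⟨u, m_1⟩ - t, …, ⟨u, m_k⟩ - t)`, bounds the order of the pole by the
multiplicity of the root; Gröbner bases in the Weyl algebra over `ℚ(c_1, …, c_r)` pass to `f`.
-/

set_option autoImplicit false

namespace Pool.Agent.Results.MP_5d9b3c_ag.SimplicialOrB1EveryPrime

open Pool.Agent.W206.CU Pool.Agent.TH216.MF
open Pool.Agent.W425.MM (NonB)
open Pool.Agent.W425.ND (spa)
open Pool.Agent.W425.SV (NP)
open Pool.Agent.W426.SM (gord IsRay)
open Pool.Agent.H628R4.TP (IsBFunction)

variable {n r : ℕ}

/-- The condition on the faces at the level `σ`, for the Newton polyhedron with the monomials `v j`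
and the monomials of `h` outside of the convex hull of the `v j` (see the definition of `HypS`).
It follows from `LocS v h σ`. -/
def FaceOK (v : Fin r → Fin n → ℕ) (h : MvPolynomial (Fin n) ℤ) (σ : ℚ) : Prop :=
  HypS (Fin.append v (ke v h)) (σ : ℝ)

/-- The level `σ` is harmless: if it is the level `|a| / N_a` of a facet `a` then it is `1`, or it is
the level of some `a` whose face contains a simplex which is not B1, or the condition on the faces
holds at the level `σ`. -/
def LevelOK (v : Fin r → Fin n → ℕ) (h : MvPolynomial (Fin n) ℤ) (σ : ℚ) : Prop :=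
  (∃ a : Fin n → ℕ, IsRay v a ∧ 0 < gord v a ∧ ((∑ i, a i : ℕ) : ℚ) / gord v a = σ) →
    σ = 1 ∨ (∃ a : Fin n → ℕ, 0 < gord v a ∧ NonB v False a ∧
      ((∑ i, a i : ℕ) : ℚ) / gord v a = σ) ∨ LocS v h σ ∨ FaceOK v h σ

/-- **Denef's question on the poles of Igusa's Poincaré series for the polynomials
`f = ∑_j c_j x ^ (v j) + h` over `ℤ` with generic coefficients `c_j`, in any number of variables, for
EVERY prime, with orders.**

`spa v c` is the polynomial `∑_j c_j x ^ (v j)`. `NP v w` says that `w` is in the Newton polyhedron
`conv {v j} + ℝ_{≥ 0} ^ n`. `IsRay v a` says that `a` spans a ray of the normal fan of this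
polyhedron (a facet), and `N_a = gord v a = min_j ⟨a, v j⟩`; its level is `|a| / N_a`, if `N_a > 0`.

`NonB v False a`: there is a set `J` of `#{i | a i ≠ 0}` elements with `⟨a, v j⟩ = N_a` for `j ∈ J` such
that the vectors `(v j i)_{a i ≠ 0}`, `j ∈ J`, are linearly independent and such that no variable `x_i`
with `a i ≠ 0` occurs in exactly one of the monomials `x ^ (v j)`, `j ∈ J`, and there with exponent `1`.

`LocS v h σ`: for every `v j1` there is a variable `x_i` such that each of the rays `a` with `N_a > 0`,
`|a| / N_a = σ` and `⟨a, v j1⟩ = N_a` (the facets through `v j1`) satisfies one of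
* its facet is a simplex (`SimH v h a`): the vectors `(v j i)_{a i ≠ 0}`, for the `j` with
  `⟨a, v j⟩ = N_a`, are linearly independent, and the exponents `w` of `h` with `⟨a, w⟩ = N_a` are in
  the convex hull of the `v j` (automatic if all `a i ≠ 0`);
* it is B1 in the direction `i` (`BD v h i a`): `a i ≠ 0`, and among the monomials of the face of `a`
  (the `x ^ (v j)` and the monomials of `h` of minimal `a`-weight `N_a`) exactly one is divisible by
  `x_i`; this one is some `x ^ (v j0)` with `v j0 i = 1` (it may also occur in `h`).

`poincare p f = ∑_m a_m (p ^ (-n) T) ^ m`, `a_m` the number of zeros of `f` modulo `p ^ m`.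
`IsPoleOfOrder P T₀ m`, `m > 0`, says that `P = A / ((T - T₀) ^ m B)` with polynomials `A`, `B` which do
not vanish at `T₀`: the rational function `P` has a pole of order `m` at `T₀`. `IsBFunction f b` says
that `b(s) f ^ s = P(s) f ^ (s + 1)` for a differential operator `P(s)` in the Weyl algebra, polynomial
in `s`; the Bernstein-Sato polynomial `b_f` is one of these polynomials `b`. -/
theorem result (hr : 0 < r) (v : Fin r → Fin n → ℕ) (hv : Function.Injective v)
    (hv0 : ∀ j, v j ≠ 0) (h : MvPolynomial (Fin n) ℤ) (hh : ∀ w ∈ h.support, NP v w) :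
    ∃ g : MvPolynomial (Fin r) ℚ, g ≠ 0 ∧
      ∀ c : Fin r → ℤ, MvPolynomial.eval (fun j => (c j : ℚ)) g ≠ 0 →
      ∀ p : ℕ, p.Prime →
        ∀ (T₀ : ℂ) (m : ℕ), 0 < m → IsPoleOfOrder (poincare p (spa v c + h)) T₀ m →
        ∀ b : Polynomial ℂ, b ≠ 0 →
          IsBFunction (MvPolynomial.map (Int.castRingHom ℂ) (spa v c + h)) b →
          ((∀ σ : ℚ, LevelOK v h σ) →
            b.eval ((-Real.log ‖T₀‖ / Real.log p : ℝ) : ℂ) = 0) ∧
          ∃ σ : ℚ, -Real.log ‖T₀‖ / Real.log p = -(σ : ℝ) ∧
            (LevelOK v h σ → b.eval ((-Real.log ‖T₀‖ / Real.log p : ℝ) : ℂ) = 0) ∧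
            (LocS v h σ ∨ FaceOK v h σ →
              m ≤ b.rootMultiplicity ((-Real.log ‖T₀‖ / Real.log p : ℝ) : ℂ)) := by
  obtain ⟨g, hg, hgc⟩ := Pool.Agent.TH216.EP.genFE hr v hv hv0 h hh
  have hloc : ∀ σ : ℚ, LocS v h σ ∨ FaceOK v h σ → FaceOK v h σ := by
    rintro σ (h1 | h1)
    · exact hypS_of_locS hr v h hh σ h1
    · exact h1
  refine ⟨g, hg, fun c hc p hp T₀ m hm hP b hb0 hb => ?_⟩
  obtain ⟨σ, h1, h2, h3⟩ := hgc c hc p hp T₀ m hm hP b hb0 hb
  have h4 : LevelOK v h σ → b.eval ((-Real.log ‖T₀‖ / Real.log p : ℝ) : ℂ) = 0 := by
    intro h5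
    refine h2 fun h6 => ?_
    rcases h5 h6 with h7 | h7 | h7
    · exact Or.inl h7
    · exact Or.inr (Or.inl h7)
    · exact Or.inr (Or.inr (hloc σ h7))
  exact ⟨fun h5 => h4 (h5 σ), σ, h1, h4, fun h5 => h3 (hloc σ h5)⟩

end Pool.Agent.Results.MP_5d9b3c_ag.SimplicialOrB1EveryPrime
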