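import Pool.Agent.Y230.TH.Fin

set_option autoImplicit false

/-! # The strong monodromy conjecture for every prime: Thom-Sebastiani sums `∑ y_j f_j(x) + g(z)`

Two classes of ideals, given by finitely many generators with rational coefficients: `TS strict
false` for ideals and `TS strict true` for hypersurfaces (principal ideals).
* `Good strict` (of `Pool/Agent/Y230/PS/Defs.lean`) is the smallest class of ideals which contains
  all nonzero ideals of `ℚ[x, y]` and the families which generate the unit ideal, and which is closed
  under sums `I + J` and products `I J` in disjoint sets of variables and under cones: if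
  `f_1, ..., f_r` are forms of degree `d > 0` in `x_0, ..., x_n`, of which `n + 1` are algebraically
  independent, and if the ideals of all charts `x_i = 1` are in the class (and, for
  `strict = true`, if `-(n + 1) / d` is not a root of the Bernstein-Sato polynomials of the charts),
  then `(f_1, ..., f_r)` is in the class.
* `TS strict false` contains `Good strict` and `TS strict true` and is closed under sums and products
  in disjoint sets of variables.
* `TS strict true` contains all plane curves `g(z_1, z_2)`, the polynomials `∑ y_j f_j(x)` and the
  **Thom-Sebastiani sums** `∑ y_j f_j(x) + g(z)`, for `(f_j)` in `TS strict false` and `g` in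
  `TS strict true`, with further variables `y_j`, and it is closed under products in disjoint sets of
  variables and under dropping variables which do not occur (so it contains the polynomials in one
  variable).
For example `y_1 f_1(x_1, x_2) + ... + y_r f_r(x_1, x_2) + g(z_1, z_2) + y f(u_1, u_2)` is in the
class, for arbitrary polynomials `f_j`, `g`, `f ≠ 0`.

For every polynomial `F` with integer coefficients such that the ideal `(F)` is in the class
`TS false false`, in any number of variables, and for EVERY prime `p` (no prime is excluded, the
reduction modulo `p` may be arbitrarily bad), the number `t_0 = -log |T_0| / log p` is a root of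
`b_F` for every pole `T_0` of Igusa's Poincare series of `F`. This answers Denef's question for
these `F`.

Method. For the operations of the class `Good` see `Pool/Agent/Y230/PS`. New are the
Thom-Sebastiani sums `F = ∑ y_j f_j(x) + g(z)`.
* Volumes: let `U_e`, `V_e`, `W_e` be the volumes of `|f| ≤ p ^ (-e)`, `|g| ≤ p ^ (-e)`,
  `|F| ≤ p ^ (-e)`. Then `p W_(e+1) - W_e = U_(e+1) (p V_(e+1) - V_e)`. So the poles of `Z_F` are
  `p` and products of poles `T_1 T_2` of `Z_f` and of `(p - T) Z_g`, with the orders of a Hadamard
  product.
* Functional equations: `b_F(s) = (s + 1) b'(s)`; the expansion of a functional equation of `F` in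
  powers of `y` gives equations for `f ^ s g ^ k` in which the exponent `k` of `g` may increase
  arbitrarily, with the factor `k! / (k + e)!`; these are microlocal equations for `g` (M. Saito),
  and a microlocal equation for `g` gives an ordinary one. If `α` is a root of multiplicity `m` for
  `(f_j)` and `β` one of multiplicity `n` of `b_g(s) / (s + 1)`, then `α + β` is a root of
  multiplicity `m + n - 1` of `b'`.
* The poles `T ≠ p`, `|T| = p` of `Z_g` (real part `-1`) need more than the strong conjecture for
  `g`: their order has to be at most the multiplicity of `-1` in `b_g(s) / (s + 1)`. This holds for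
  all `g` in `TS strict true`; for a plane curve there is no such pole, or it is simple and comes
  from a node with irrational tangents, and then `-1` is a double root of `b_g`. -/

namespace Pool.Agent.Results.MP_5d9b3c_ag.ThomSebastianiSums

open MvPolynomial Pool.Agent.W427.SMC Pool.Agent.H628R4.TP Pool.Agent.Y230.TH

/-- **Denef's question for the hypersurfaces of the class `TS` and every prime `p`.** Let `b`
satisfy a functional equation `b(s) F ^ s = P(s) F ^ (s + 1)`, for instance `b = b_F`. Then the
Poincare series of `F` is the expansion at `0` of a rational function `Φ`, and for every pole `T₀`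
of `Φ`, that is, for every root `T₀` of the reduced denominator of `Φ`, the number
`t₀ = -log |T₀| / log p` is a root of `b`. -/
theorem result {V : Type} [Fintype V] (F : MvPolynomial V ℤ)
    (hF : TS false false ⟨V, Fin 1, fun _ => map (Int.castRingHom ℚ) F⟩) (p : ℕ)
    [Fact p.Prime] (b : Polynomial ℂ) (hb : IsBFunction (map (Int.castRingHom ℂ) F) b) :
    ∃ Φ : RatFunc ℂ,
      ((Φ.denom : Polynomial ℂ) : PowerSeries ℂ) * poincare p F =
        ((Φ.num : Polynomial ℂ) : PowerSeries ℂ) ∧
      ∀ T₀ : ℂ, Φ.denom.eval T₀ = 0 → b.eval ((-Real.log ‖T₀‖ / Real.log p : ℝ) : ℂ) = 0 :=
  poinT_R Pool.Agent.Y465.TH.tR F hF b hb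

end Pool.Agent.Results.MP_5d9b3c_ag.ThomSebastianiSums
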